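import Pool.Agent.ElemEmb.Final

/-! A stronger form of the coding of `Pool.Agent.ElemEmb`: all structures are models of one complete
theory, they are rigid, every embedding between two of them is elementary, and the reductions in the
two directions are inverse to each other up to isomorphism. -/

set_option autoImplicit false

open Classical FirstOrder
open Pool.Agent.ElemEmb

namespace Pool.Agent.ElemEmb87

/-- The language with a binary relation symbol `R_0` and unary relation symbols `R_1, R_2, ...`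
(the relation symbols of arity `n` are the `i` with `ar i = n`, where `ar 0 = 2`, `ar (i+1) = 1`). -/
abbrev L : FirstOrder.Language.{0, 0} := langOf ar

/-- The universe of the structure coded by `u`: the natural numbers. -/
def Str (_u : Code ar) : Type := ℕ

/-- The structure coded by `u`: `R_i x` holds iff `u i x = true`. -/
instance instStr (u : Code ar) : L.Structure (Str u) := strOf ar u

/-! ### Isomorphisms -/

theorem equiv_apply {u v : Code ar} (e : Str u ≃[L] Str v) (i : ℕ) (x : Fin (ar i) → ℕ) :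
    u i x = v i (fun a => e (x a)) := by
  have h := e.map_rel' (n := ar i) ⟨i, rfl⟩ x
  exact (Bool.eq_iff_iff.2 h).symm

/-- The isomorphism given by a permutation. -/
def equivOf {u v : Code ar} (σ : Equiv.Perm ℕ) (h : ∀ i x, u i x = v i (σ ∘ x)) :
    Str u ≃[L] Str v :=
  { (σ : ℕ ≃ ℕ) with
    map_fun' := fun {_} f _ => PEmpty.elim f
    map_rel' := by
      rintro _ ⟨i, rfl⟩ x
      show (v i (σ ∘ x) = true) ↔ (u i x = true)
      rw [h i x] }

theorem equivOf_apply {u v : Code ar} (σ : Equiv.Perm ℕ) (h : ∀ i x, u i x = v i (σ ∘ x)) (n : ℕ) :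
    (equivOf σ h : Str u → Str v) n = σ n := rfl

/-! ### Elementary maps -/

/-- `h` preserves all formulas. -/
def Elem (u v : Code ar) (h : Str u → Str v) : Prop :=
  ∀ (n : ℕ) (φ : L.Formula (Fin n)) (x : Fin n → Str u), φ.Realize (h ∘ x) ↔ φ.Realize x

theorem elem_of_BF {u v : Code ar} (h : ℕ → ℕ)
    (H : ∀ N : ℕ, ∀ n : ℕ, ∀ x : Fin n → ℕ, ∃ P, BF ar u v N P ∧ ∃ Q ∈ P, ∀ i, (x i, h (x i)) ∈ Q) :
    Elem u v h := by
  intro n φ x
  obtain ⟨N₀, h₀⟩ := RZ_iff (u := u) (v := v) φ
  obtain ⟨P, hP, Q, hQ, hx⟩ := H N₀ n x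
  exact (h₀ N₀ le_rfl P hP Q hQ x (h ∘ x) _ _ hx (fun i => i.elim0)).symm

theorem TreeEmb.elem {col col' : List ℕ → ℕ → Bool} (hF : Full col) (hF' : Full col')
    {j : List ℕ → List ℕ} (hj : TreeEmb col col' j) :
    Elem (codeOf col) (codeOf col') (fun n => enc (j (enc.symm n))) := by
  refine elem_of_BF (fun n => enc (j (enc.symm n))) ?_
  intro N n x
  refine ⟨_, BF_good hF hF' N, ?_⟩
  -- the suffix closed finite set generated by `x`
  let A : Finset (List ℕ) :=
    insert [] (Finset.univ.biUnion fun i : Fin n => (enc.symm (x i)).tails.toFinset)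
  have hA : ∀ w, w ∈ A ↔ (w = [] ∨ ∃ i, w <:+ enc.symm (x i)) := by
    intro w
    simp [A]
  have hcl : ∀ k w, (k :: w) ∈ A → w ∈ A := by
    intro k w h
    rcases (hA _).1 h with h | ⟨i, h⟩
    · cases h
    · exact (hA _).2 (Or.inr ⟨i, (List.suffix_cons k w).trans h⟩)
  let Q : Finset (List ℕ × List ℕ) := A.image fun w => (w, j w)
  have hQ : ∀ w v, (w, v) ∈ Q ↔ (w ∈ A ∧ v = j w) := by
    intro w v
    simp only [Q, Finset.mem_image, Prod.mk.injEq]
    constructor
    · rintro ⟨a, ha, rfl, rfl⟩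
      exact ⟨ha, rfl⟩
    · rintro ⟨ha, rfl⟩
      exact ⟨w, ha, rfl, rfl⟩
  refine ⟨encSet Q, ⟨Q, ⟨?_, ?_, ?_, ?_, ?_⟩, rfl⟩, ?_⟩
  · exact (hQ _ _).2 ⟨(hA _).2 (Or.inl rfl), hj.nil.symm⟩
  · intro k w v h
    obtain ⟨hw, rfl⟩ := (hQ _ _).1 h
    obtain ⟨k', e⟩ := hj.cons k w
    exact ⟨k', j w, e, (hQ _ _).2 ⟨hcl _ _ hw, rfl⟩⟩
  · intro w k' v h
    obtain ⟨hw, e⟩ := (hQ _ _).1 h
    cases w with
    | nil =>
      rw [hj.nil] at e
      cases e
    | cons k w =>
      obtain ⟨k₂, e₂⟩ := hj.cons k w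
      rw [e₂] at e
      obtain ⟨_, e₃⟩ := List.cons.inj e
      exact ⟨k, w, rfl, (hQ _ _).2 ⟨hcl _ _ hw, e₃⟩⟩
  · rintro ⟨a, b⟩ hp ⟨c, d⟩ hq
    obtain ⟨_, rfl⟩ := (hQ _ _).1 hp
    obtain ⟨_, rfl⟩ := (hQ _ _).1 hq
    exact (hj.inj.eq_iff).symm
  · rintro ⟨a, b⟩ hp m _
    obtain ⟨_, rfl⟩ := (hQ _ _).1 hp
    exact (hj.colr a m).symm
  · intro i
    show (enc.symm (x i), enc.symm (enc (j (enc.symm (x i))))) ∈ Q
    rw [Equiv.symm_apply_apply]
    exact (hQ _ _).2 ⟨(hA _).2 (Or.inr ⟨i, List.suffix_rfl⟩), rfl⟩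

/-! ### Embeddings between coded trees -/

/-- The map of nodes given by a map of structures. -/
def nodeMap (h : ℕ → ℕ) (w : List ℕ) : List ℕ := enc.symm (h (enc w))

theorem embedding_cons {col col' : List ℕ → ℕ → Bool}
    (h : Str (codeOf col) ↪[L] Str (codeOf col')) (k : ℕ) (w : List ℕ) :
    ∃ k', nodeMap h (k :: w) = k' :: nodeMap h w := by
  have h1 := h.map_rel' (n := 2) ⟨0, rfl⟩ ![enc w, enc (k :: w)]
  have h2 := h1.2 (by
    show isChild (enc.symm (enc (k :: w))) (enc.symm (enc w)) = true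
    rw [Equiv.symm_apply_apply, Equiv.symm_apply_apply]
    simp [isChild])
  exact (isChild_iff _ _).1 h2

theorem embedding_col {col col' : List ℕ → ℕ → Bool}
    (h : Str (codeOf col) ↪[L] Str (codeOf col')) (w : List ℕ) (n : ℕ) :
    col' (nodeMap h w) n = col w n := by
  have h1 := h.map_rel' (n := 1) ⟨n + 1, rfl⟩ ![enc w]
  have h2 : (col' (nodeMap h w) n = true) ↔ (col (enc.symm (enc w)) n = true) := h1
  rw [Equiv.symm_apply_apply] at h2
  exact Bool.eq_iff_iff.2 h2

theorem embedding_treeMap {Pr Pr' : List ℕ → ℕ → Prop}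
    (h : Str (codeOf (colP Pr)) ↪[L] Str (codeOf (colP Pr'))) : TreeMap Pr Pr' (nodeMap h) :=
  ⟨embedding_cons h, fun w => kap_inj (funext fun n => embedding_col h w n)⟩

/-- Every embedding between two coded trees is elementary. -/
theorem embedding_elem {Pr Pr' : List ℕ → ℕ → Prop}
    (h : Str (codeOf (colP Pr)) ↪[L] Str (codeOf (colP Pr'))) :
    Elem (codeOf (colP Pr)) (codeOf (colP Pr')) h := by
  have h1 := embedding_treeMap h
  have h2 : TreeEmb (colP Pr) (colP Pr') (nodeMap h) :=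
    ⟨h1.nil, h1.cons, fun a b hab => enc.injective (h.injective (enc.symm.injective hab)),
      embedding_col h⟩
  have h3 := TreeEmb.elem (full_colP Pr) (full_colP Pr') h2
  have h4 : ∀ (g : ℕ → ℕ) (n : ℕ), enc (nodeMap g (enc.symm n)) = g n := by
    intro g n
    rw [nodeMap, Equiv.apply_symm_apply, Equiv.apply_symm_apply]
  have h5 : (fun n => enc (nodeMap h (enc.symm n))) = (h : ℕ → ℕ) := funext (h4 h)
  exact (congrArg (fun g : ℕ → ℕ => Elem (codeOf (colP Pr)) (codeOf (colP Pr')) g) h5).mp h3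

/-! ### The complete theory -/

/-- The complete theory of the tree without labels. -/
def T : L.Theory := L.completeTheory (Str (codeOf (colP fun _ _ => False)))

instance : Nonempty (Str (codeOf (colP fun _ _ => False))) := ⟨(0 : ℕ)⟩

theorem T_complete : T.IsComplete :=
  FirstOrder.Language.completeTheory.isComplete L (Str (codeOf (colP fun _ _ => False)))

theorem sentence_iff (Pr Pr' : List ℕ → ℕ → Prop) (φ : L.Sentence) :
    Str (codeOf (colP Pr)) ⊨ φ ↔ Str (codeOf (colP Pr')) ⊨ φ := by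
  obtain ⟨N₀, h₀⟩ := RZ_iff (u := codeOf (colP Pr)) (v := codeOf (colP Pr')) φ
  have hg : Good (colP Pr) (colP Pr') N₀ {([], [])} := by
    refine ⟨Finset.mem_singleton_self _, ?_, ?_, ?_, ?_⟩
    · intro k w v h
      have := Finset.mem_singleton.1 h
      simp at this
    · intro w k' v h
      have := Finset.mem_singleton.1 h
      simp at this
    · intro p hp q hq
      rw [Finset.mem_singleton.1 hp, Finset.mem_singleton.1 hq]
    · intro p hp n _
      rw [Finset.mem_singleton.1 hp]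
      rfl
  exact h₀ N₀ le_rfl _ (BF_good (full_colP Pr) (full_colP Pr') N₀) _ ⟨_, hg, rfl⟩
    (default : Empty → Str (codeOf (colP Pr))) (default : Empty → Str (codeOf (colP Pr')))
    (default : Fin 0 → Str (codeOf (colP Pr))) (default : Fin 0 → Str (codeOf (colP Pr')))
    (fun i => Empty.elim i) (fun i => i.elim0)

theorem T_model (Pr : List ℕ → ℕ → Prop) : Str (codeOf (colP Pr)) ⊨ T := by
  refine ⟨fun φ hφ => ?_⟩
  exact (sentence_iff _ _ φ).1 (FirstOrder.Language.mem_completeTheory.1 hφ)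

end Pool.Agent.ElemEmb87
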