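import Pool.Agent.ElemEmb87.Strong

/-! Every analytic quasi-order is Borel equivalent to elementary embeddability on a Borel isomorphism
invariant class of rigid models of one fixed complete theory. -/

set_option autoImplicit false

open Classical FirstOrder
open Pool.Agent.ElemEmb

namespace Pool.Agent.ElemEmb87

universe w

/-- `S` is analytic: empty, or the image of the Baire space under a Borel map. -/
def IsAnalytic {Y : Type w} [MeasurableSpace Y] (S : Set Y) : Prop :=
  S = ∅ ∨ ∃ φ : (ℕ → ℕ) → Y, Measurable φ ∧ Set.range φ = S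

/-- The binary relation of the tree of finite sequences of natural numbers, under a fixed bijection
`enc` of the set of these sequences with the natural numbers: `treeRel v` says that the sequence of
`v 1` is a child of the sequence of `v 0`. -/
def treeRel (v : Fin (ar 0) → ℕ) : Bool :=
  isChild (enc.symm (v (1 : Fin 2))) (enc.symm (v (0 : Fin 2)))

theorem iso_of_equiv {u v : Code ar} (e : Str u ≃[L] Str v) :
    ∃ σ : Equiv.Perm ℕ, (∀ i x, u i x = v i (σ ∘ x)) ∧ ∀ n : ℕ, σ n = (e : Str u → Str v) n :=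
  ⟨e.toEquiv, fun i x => equiv_apply e i x, fun _ => rfl⟩

theorem universal (X : Type w) [MeasurableSpace X] [StandardBorelSpace X] (R : X → X → Prop)
    (hrefl : ∀ x, R x x) (htrans : ∀ x y z, R x y → R y z → R x z)
    (han : IsAnalytic {p : X × X | R p.1 p.2}) :
    ∃ (B : Set (Code ar)) (f : X → B) (g : B → X) (h : B → ℕ → ℕ),
      MeasurableSet B ∧ Measurable f ∧ Measurable g ∧ Measurable h ∧ (∀ x, g (f x) = x) ∧
      (∀ u : B, ∃ e : Str u.1 ≃[L] Str (f (g u)).1, (e : ℕ → ℕ) = h u) ∧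
      (∀ x, (f x).1 0 = treeRel) ∧
      (∀ u v : Code ar, Nonempty (Str u ≃[L] Str v) → u ∈ B → v ∈ B) ∧
      (∀ u ∈ B, Str u ⊨ T) ∧
      (∀ u ∈ B, ∀ (e : Str u ≃[L] Str u) (a : Str u), e a = a) ∧
      (∀ u ∈ B, ∀ v ∈ B, ∀ (h : Str u ↪[L] Str v) (n : ℕ) (φ : L.Formula (Fin n))
        (a : Fin n → Str u), φ.Realize (h ∘ a) ↔ φ.Realize a) ∧
      (∀ u v : B, Nonempty (Str u.1 ≃[L] Str v.1) ↔ g u = g v) ∧
      (∀ u v : B, R (g u) (g v) ↔ Nonempty (Str u.1 ↪ₑ[L] Str v.1)) := by
  -- embed `X` into the Cantor space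
  obtain ⟨ι, hι, ιinj⟩ := MeasurableSpace.measurable_injection_nat_bool_of_countablySeparated X
  -- the image of `R` is parametrised by a continuous function, if `X` is nonempty
  obtain ⟨g, hg, hgR⟩ : ∃ g : (ℕ → ℕ) → (ℕ → Bool) × (ℕ → Bool), Continuous g ∧
      ((∃ _ : X, True) → ∀ a b, (∃ t, g t = (a, b)) ↔ ∃ x y, ι x = a ∧ ι y = b ∧ R x y) := by
    by_cases hX : ∃ _ : X, True
    · obtain ⟨x₀, _⟩ := hX
      rcases han with h | ⟨φ, hφ, hφR⟩
      · have : (x₀, x₀) ∈ ({p : X × X | R p.1 p.2} : Set (X × X)) := hrefl x₀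
        rw [h] at this
        exact this.elim
      · have hm : Measurable fun t => (ι (φ t).1, ι (φ t).2) :=
          (hι.comp (measurable_fst.comp hφ)).prodMk (hι.comp (measurable_snd.comp hφ))
        have h2 : MeasureTheory.AnalyticSet ((fun t => (ι (φ t).1, ι (φ t).2)) '' Set.univ) :=
          MeasurableSet.univ.analyticSet_image hm
        rw [MeasureTheory.AnalyticSet] at h2
        rcases h2 with h2 | ⟨g, hg, hgr⟩
        · exfalso
          rw [Set.image_univ] at h2
          exact (Set.range_nonempty (fun t => (ι (φ t).1, ι (φ t).2))).ne_empty h2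
        · refine ⟨g, hg, fun _ a b => ?_⟩
          have h3 : (∃ t, g t = (a, b)) ↔ (a, b) ∈ Set.range g := Iff.rfl
          rw [h3, hgr, Set.image_univ]
          constructor
          · rintro ⟨t, ht⟩
            have h4 : φ t ∈ ({p : X × X | R p.1 p.2} : Set (X × X)) := by
              rw [← hφR]
              exact ⟨t, rfl⟩
            exact ⟨(φ t).1, (φ t).2, (Prod.mk.inj ht).1, (Prod.mk.inj ht).2, h4⟩
          · rintro ⟨x, y, rfl, rfl, hxy⟩
            have h4 : (x, y) ∈ Set.range φ := by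
              rw [hφR]
              exact hxy
            obtain ⟨t, ht⟩ := h4
            refine ⟨t, ?_⟩
            show (ι (φ t).1, ι (φ t).2) = (ι x, ι y)
            rw [ht]
    · exact ⟨fun _ => (fun _ => false, fun _ => false), continuous_const, fun h => absurd h hX⟩
  -- reduction
  have hred : ∀ x y, R x y ↔ EE ar (MM g (ι x)) (MM g (ι y)) := by
    intro x y
    have hgR' := hgR ⟨x, trivial⟩
    constructor
    · intro h
      obtain ⟨t, ht⟩ := (hgR' (ι x) (ι y)).2 ⟨x, y, rfl, rfl, h⟩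
      exact EE_of_rel ht
    · intro h
      have h1 := rel_of_EE hg h
      have h2 : ∀ b, Relation.ReflTransGen (fun a b => ∃ t, g t = (a, b)) (ι x) b →
          ∃ y, b = ι y ∧ R x y := by
        intro b hb
        induction hb with
        | refl => exact ⟨x, rfl, hrefl x⟩
        | tail _ h4 ih =>
          obtain ⟨y', e, hy'⟩ := ih
          obtain ⟨x₁, y₁, e₁, e₂, h5⟩ := (hgR' _ _).1 h4
          rw [e] at e₁
          rw [ιinj e₁] at h5
          exact ⟨y₁, e₂.symm, htrans _ _ _ hy' h5⟩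
      obtain ⟨y', e, hy'⟩ := h2 _ h1
      rw [ιinj e]
      exact hy'
  -- the Borel class
  have : StandardBorelSpace PP := measurableSet_PP.standardBorel
  let Φ : X × PP → Code ar := fun q i v => MM g (ι q.1) i (q.2.1.1 ∘ v)
  have hΦm : Measurable Φ := by
    rw [measurable_pi_iff]
    intro i
    rw [measurable_pi_iff]
    intro v
    have h1 : Measurable fun q : ((Fin (ar i) → ℕ) → Bool) × (Fin (ar i) → ℕ) => q.1 q.2 :=
      measurable_from_prod_countable_left fun n => measurable_pi_apply n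
    have h2 : Measurable fun q : X × PP => MM g (ι q.1) i :=
      (measurable_pi_apply i).comp (measurable_MM.comp (hι.comp measurable_fst))
    have h3 : Measurable fun q : X × PP => q.2.1.1 ∘ v := by
      rw [measurable_pi_iff]
      intro a
      exact (measurable_pi_apply (v a)).comp
        (measurable_fst.comp (measurable_subtype_coe.comp measurable_snd))
    exact h1.comp (h2.prodMk h3)
  have hΦi : Function.Injective Φ := by
    rintro ⟨x, p⟩ ⟨y, q⟩ h
    have h1 : ∀ i v, MM g (ι x) i (toPerm p ∘ v) = MM g (ι y) i (toPerm q ∘ v) :=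
      fun i v => congrFun (congrFun h i) v
    have h2 := MM_rigid (g := g) (x := ι x) (y := ι y) (toPerm q * (toPerm p)⁻¹) (by
      intro i v
      have h3 := h1 i (((toPerm p)⁻¹ : Equiv.Perm ℕ) ∘ v)
      have e1 : toPerm p ∘ ((toPerm p)⁻¹ : Equiv.Perm ℕ) ∘ v = v := by
        funext a
        simp
      rw [e1] at h3
      rw [h3]
      rfl)
    obtain ⟨h3, h4⟩ := h2
    have h5 : toPerm q = toPerm p := mul_inv_eq_one.1 h4
    rw [ιinj h3, toPerm_inj h5]
  have hΦ : MeasurableEmbedding Φ := hΦm.measurableEmbedding hΦi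
  have hEE : ∀ q : X × PP, EE ar (Φ q) (MM g (ι q.1)) ∧ EE ar (MM g (ι q.1)) (Φ q) := by
    intro q
    refine ⟨EE_iso (toPerm q.2) fun i x => rfl, EE_iso (toPerm q.2).symm fun i x => ?_⟩
    show MM g (ι q.1) i x = MM g (ι q.1) i (toPerm q.2 ∘ ((toPerm q.2).symm ∘ x))
    congr 1
    funext a
    simp
  -- the isomorphism of `Φ q` with the standard copy
  let iso : ∀ q : X × PP, Str (Φ q) ≃[L] Str (MM g (ι q.1)) :=
    fun q => equivOf (toPerm q.2) fun i x => rfl
  have hinj : ∀ q q' : X × PP, (Str (Φ q) ≃[L] Str (Φ q')) → q.1 = q'.1 := by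
    intro q q' e
    obtain ⟨σ, h1, _⟩ := iso_of_equiv ((iso q').comp (e.comp (iso q).symm))
    exact ιinj (MM_rigid (g := g) σ h1).1
  have hmem : ∀ x, Φ (x, ofPerm 1) = MM g (ι x) := by
    intro x
    funext i v
    rfl
  refine ⟨Set.range Φ, fun x => ⟨MM g (ι x), (x, ofPerm 1), hmem x⟩,
    fun u => (hΦ.equivRange.symm u).1, fun u => (hΦ.equivRange.symm u).2.1.1,
    hΦ.measurableSet_range, ?_, ?_, ?_, ?_, ?_, ?_, ?_, ?_, ?_, ?_, ?_, ?_⟩
  · exact Measurable.subtype_mk (measurable_MM.comp hι)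
  · exact measurable_fst.comp hΦ.equivRange.symm.measurable
  · exact measurable_fst.comp (measurable_subtype_coe.comp
      (measurable_snd.comp hΦ.equivRange.symm.measurable))
  · intro x
    have e : (⟨MM g (ι x), (x, ofPerm 1), hmem x⟩ : Set.range Φ) = ⟨Φ (x, ofPerm 1), _, rfl⟩ :=
      Subtype.ext (hmem x).symm
    have h : (hΦ.equivRange.symm ⟨MM g (ι x), (x, ofPerm 1), hmem x⟩).1 = x := by
      rw [e, hΦ.equivRange_symm_apply_mk]
    exact h
  · rintro ⟨_, q, rfl⟩
    have key : ∀ r : X × PP, r = q → ∃ e : Str (Φ q) ≃[L] Str (MM g (ι r.1)),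
        (e : ℕ → ℕ) = r.2.1.1 := by
      rintro r rfl
      exact ⟨iso r, rfl⟩
    exact key _ (hΦ.equivRange_symm_apply_mk q)
  · intro x
    rfl
  · rintro _ v ⟨e⟩ ⟨q, rfl⟩
    obtain ⟨σ, h1, _⟩ := iso_of_equiv e.symm
    refine ⟨(q.1, ofPerm (toPerm q.2 * σ)), ?_⟩
    funext i x
    exact (h1 i x).symm
  · rintro _ ⟨q, rfl⟩
    have : Str (MM g (ι q.1)) ⊨ T := T_model _
    exact ((iso q).toElementaryEmbedding.theory_model_iff T).2 this
  · rintro _ ⟨q, rfl⟩ e a
    obtain ⟨σ, h1, h2⟩ := iso_of_equiv ((iso q).comp (e.comp (iso q).symm))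
    have h3 := (MM_rigid (g := g) σ h1).2
    have h4 : (iso q) (e ((iso q).symm ((iso q) a))) = (iso q) a := by
      have h5 := h2 (iso q a)
      rw [h3] at h5
      exact h5.symm
    rw [FirstOrder.Language.Equiv.symm_apply_apply] at h4
    exact (iso q).injective h4
  · rintro _ ⟨q, rfl⟩ _ ⟨q', rfl⟩ h n φ a
    have h1 := embedding_elem ((iso q').toEmbedding.comp (h.comp (iso q).symm.toEmbedding)) n φ
      ((iso q) ∘ a)
    have h2 : ((iso q').toEmbedding.comp (h.comp (iso q).symm.toEmbedding)) ∘ ((iso q) ∘ a) =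
        (iso q') ∘ (h ∘ a) := by
      funext k
      show (iso q') (h ((iso q).symm ((iso q) (a k)))) = (iso q') (h (a k))
      rw [FirstOrder.Language.Equiv.symm_apply_apply]
    have h3 : φ.Realize ((iso q') ∘ (h ∘ a)) ↔ φ.Realize ((iso q) ∘ a) := by
      rw [← h2]
      exact h1
    rw [FirstOrder.Language.StrongHomClass.realize_formula (iso q') φ,
      FirstOrder.Language.StrongHomClass.realize_formula (iso q) φ] at h3
    exact h3
  · rintro ⟨_, q, rfl⟩ ⟨_, q', rfl⟩
    show Nonempty (Str (Φ q) ≃[L] Str (Φ q')) ↔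
      (hΦ.equivRange.symm ⟨Φ q, _⟩).1 = (hΦ.equivRange.symm ⟨Φ q', _⟩).1
    rw [hΦ.equivRange_symm_apply_mk, hΦ.equivRange_symm_apply_mk]
    constructor
    · rintro ⟨e⟩
      exact hinj q q' e
    · intro h
      obtain ⟨x, p⟩ := q
      obtain ⟨y, p'⟩ := q'
      have hxy : x = y := h
      subst hxy
      exact ⟨(iso (x, p')).symm.comp (iso (x, p))⟩
  · rintro ⟨_, q, rfl⟩ ⟨_, q', rfl⟩
    show R (hΦ.equivRange.symm ⟨Φ q, _⟩).1 (hΦ.equivRange.symm ⟨Φ q', _⟩).1 ↔ EE ar (Φ q) (Φ q')
    rw [hΦ.equivRange_symm_apply_mk, hΦ.equivRange_symm_apply_mk, hred]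
    exact ⟨fun h => EE_trans (hEE q).1 (EE_trans h (hEE q').2),
      fun h => EE_trans (hEE q).2 (EE_trans h (hEE q').1)⟩

end Pool.Agent.ElemEmb87
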